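import Pool.Agent.ORA.Main
import Pool.Agent.ORG.ImmI
import Pool.Agent.ORG.ImmS
import Pool.Agent.ORG.ImmM

/-!
# Hitting sets of polynomial size for orbits of formulas under polynomial automorphisms

Black-box identity testing, in polynomial time, for polynomials which become formulas of bounded
depth and bounded occurrence (over leaves in small spaces, such as sparse polynomials and entries of
products of matrices of variables) after an unknown polynomial automorphism of affine space.
-/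

set_option autoImplicit false

namespace Pool.Agent.Results.MP_e2be99_lc.OrbitFormulas

open MvPolynomial Pool.Agent.ORB Pool.Agent.ORG Pool.Agent.ORA

theorem result (n κ k s Δ D : ℕ) :
    (hitSet n (ordF n κ k s Δ) (2 + seeds κ k Δ) (D * (ordF n κ k s Δ + 1))).card ≤
      (D * (ordF n κ k s Δ + 1) + 1) ^ (2 * (2 + seeds κ k Δ)) ∧
    (∀ x ∈ hitSet n (ordF n κ k s Δ) (2 + seeds κ k Δ) (D * (ordF n κ k s Δ + 1)), ∀ i,
      x i ≤ (2 + seeds κ k Δ) * (D * (ordF n κ k s Δ + 1)) * (ordF n κ k s Δ *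
        ((ordF n κ k s Δ).factorial *
          (n * (D * (ordF n κ k s Δ + 1)) + 1) ^ ordF n κ k s Δ))) ∧
    ∀ (K : Type*) [Field K] [CharZero K],
      (∀ (m : ℕ) (g : Fin m → MvPolynomial (Fin n) K), (∀ j, AutOrbit κ k s Δ (g j)) →
        (∀ j, g j ≠ 0) → ∀ f : MvPolynomial (Fin n) K, f ∣ ∏ j, g j → f.totalDegree ≤ D →
        ∃ x ∈ hitSet n (ordF n κ k s Δ) (2 + seeds κ k Δ) (D * (ordF n κ k s Δ + 1)),
          eval (fun i => (x i : K)) f ≠ 0) ∧
      (∀ (T w r : ℕ) (e : Fin n ≃ (Fin T × Fin w × Fin w) ⊕ Fin r) (cut : Finset (Fin T))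
        (B : Finset (Fin r)), 4 ^ w ≤ s → 2 ≤ s → IsFrame (immFrame K e cut B) s ∧
        (∀ p d, p + d ≤ T → (∀ l : Fin T, p < l → l < p + d → l ∉ cut) →
          ∀ x y, FrameLeaf (immFrame K e cut B) s (seg K e p d x y)) ∧
        (∀ g : MvPolynomial (Fin n) K, g.support.card ≤ s →
          (∀ t, e.symm (Sum.inl t) ∉ g.vars) → FrameLeaf (immFrame K e cut ∅) s g)) :=
  ⟨card_hitSet n _ _ _, fun x hx i => bound_hitSet n _ _ _ x hx i, fun K _ _ =>
    ⟨fun m g hg hg0 f hf hD => main_hit κ k s Δ D m g hg hg0 f hf hD,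
      fun T w r e cut B hs hs2 => ⟨isFrame_immFrame e cut B hs hs2,
        fun p d hd hcut x y => frameLeaf_seg e cut B (le_trans (by
          calc w * w ≤ 2 ^ w * 2 ^ w := Nat.mul_le_mul Nat.lt_two_pow_self.le Nat.lt_two_pow_self.le
            _ = 4 ^ w := by rw [← mul_pow]; norm_num) hs) (by omega) hd hcut x y,
        fun g hg hv => frameLeaf_sparse e cut g hg hv⟩⟩⟩

end Pool.Agent.Results.MP_e2be99_lc.OrbitFormulas
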